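import Mathlib

/-!
Martin's axiom for `ℵ₁` dense sets, for ccc posets and for σ-centred posets.
-/

set_option autoImplicit false

namespace Pool.Agent.Helper84.GM

open Set Cardinal

/-- The countable chain condition: every set of pairwise incompatible elements is countable. -/
def CCC (P : Type) [PartialOrder P] : Prop :=
  ∀ A : Set P, (∀ p ∈ A, ∀ q ∈ A, p ≠ q → ¬ ∃ r : P, r ≤ p ∧ r ≤ q) → A.Countable

/-- `P` is σ-centred: it is a union of countably many sets each of whose finite subsets has a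
common lower bound in `P`. -/
def SigmaCentered (P : Type) [PartialOrder P] : Prop :=
  ∃ c : P → ℕ, ∀ (n : ℕ) (s : Finset P), (∀ p ∈ s, c p = n) → ∃ r : P, ∀ p ∈ s, r ≤ p

/-- There is a filter of `P` meeting every member of the family `𝒟` of dense sets, for every family
`𝒟` of at most `ℵ₁` dense sets. -/
def MeetsAleph1 (P : Type) [PartialOrder P] : Prop :=
  ∀ 𝒟 : Set (Set P), #𝒟 ≤ ℵ₁ → (∀ D ∈ 𝒟, ∀ p : P, ∃ q ∈ D, q ≤ p) →
    ∃ G : Set P, G.Nonempty ∧ (∀ p ∈ G, ∀ q : P, p ≤ q → q ∈ G) ∧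
      (∀ p ∈ G, ∀ q ∈ G, ∃ r ∈ G, r ≤ p ∧ r ≤ q) ∧ ∀ D ∈ 𝒟, (G ∩ D).Nonempty

/-- Martin's axiom for `ℵ₁` dense sets. -/
def MAaleph1 : Prop :=
  ∀ (P : Type) [PartialOrder P] [Nonempty P], CCC P → MeetsAleph1 P

/-- Martin's axiom for `ℵ₁` dense sets in σ-centred posets. -/
def MAcentered : Prop :=
  ∀ (P : Type) [PartialOrder P] [Nonempty P], SigmaCentered P → MeetsAleph1 P

lemma ccc_of_centered {P : Type} [PartialOrder P] (h : SigmaCentered P) : CCC P := by
  classical
  obtain ⟨c, hc⟩ := h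
  intro A hA
  have hinj : Set.InjOn c A := by
    intro p hp q hq hpq
    by_contra hne
    obtain ⟨r, hr⟩ := hc (c q) {p, q} (by
      intro x hx
      rcases Finset.mem_insert.1 hx with h | h
      · rw [h, hpq]
      · rw [Finset.mem_singleton.1 h])
    exact hA p hp q hq hne ⟨r, hr p (by simp), hr q (by simp)⟩
  exact Set.MapsTo.countable_of_injOn (Set.mapsTo_univ c A) hinj Set.countable_univ

theorem MAcentered_of_MAaleph1 (h : MAaleph1) : MAcentered :=
  fun P _ _ hP => h P (ccc_of_centered hP)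

end Pool.Agent.Helper84.GM
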