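import Mathlib
import Pool.Agent.Helper84.GM.Defs

set_option autoImplicit false

namespace Pool.Agent.Helper84.GM

open Set Cardinal

section

variable {I : Type} (K : Set (I → ℤ))

/-- Conditions: a finitely supported sequence of members of `K` (or zero) and a finite set. -/
@[ext] structure Cond where
  n : ℕ
  F : ℕ → I → ℤ
  s : Finset I
  hK : ∀ j, F j ∈ K
  h0 : ∀ j, n ≤ j → F j = 0

variable {K}

instance : PartialOrder (Cond K) where
  le q p := p.n ≤ q.n ∧ (∀ j, j < p.n → q.F j = p.F j) ∧ p.s ⊆ q.s ∧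
    ∀ j, p.n ≤ j → ∀ x ∈ p.s, q.F j x = 0
  le_refl p := ⟨le_rfl, fun _ _ => rfl, subset_rfl, fun j hj x _ => by rw [p.h0 j hj]; rfl⟩
  le_trans r q p hrq hqp := by
    obtain ⟨h1, h2, h3, h4⟩ := hrq
    obtain ⟨g1, g2, g3, g4⟩ := hqp
    refine ⟨g1.trans h1, fun j hj => (h2 j (hj.trans_le g1)).trans (g2 j hj), g3.trans h3, ?_⟩
    intro j hj x hx
    by_cases hjq : j < q.n
    · rw [h2 j hjq]; exact g4 j hj x hx
    · exact h4 j (not_lt.1 hjq) x (g3 hx)
  le_antisymm p q hpq hqp := by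
    obtain ⟨h1, h2, h3, -⟩ := hpq
    obtain ⟨g1, g2, g3, -⟩ := hqp
    have hn : p.n = q.n := le_antisymm g1 h1
    refine Cond.ext hn ?_ (Finset.Subset.antisymm g3 h3)
    funext j
    by_cases hj : j < q.n
    · exact h2 j hj
    · rw [p.h0 j (by omega), q.h0 j (by omega)]

lemma le_def {q p : Cond K} : q ≤ p ↔ p.n ≤ q.n ∧ (∀ j, j < p.n → q.F j = p.F j) ∧ p.s ⊆ q.s ∧
    ∀ j, p.n ≤ j → ∀ x ∈ p.s, q.F j x = 0 := Iff.rfl

lemma centered (hK : K.Countable) (h0K : (0 : I → ℤ) ∈ K) : SigmaCentered (Cond K) := by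
  classical
  have := hK.to_subtype
  -- the colour is the pair `(n, F)`
  let code : Cond K → List K := fun p => List.ofFn (n := p.n) (fun j => ⟨p.F j, p.hK j⟩)
  obtain ⟨e, he⟩ := exists_injective_nat (List K)
  refine ⟨fun p => e (code p), ?_⟩
  intro m s hs
  rcases s.eq_empty_or_nonempty with rfl | ⟨p0, hp0⟩
  · exact ⟨⟨0, fun _ => 0, ∅, fun _ => h0K, fun _ _ => rfl⟩, by simp⟩
  have key : ∀ p ∈ s, p.n = p0.n ∧ p.F = p0.F := by
    intro p hp
    have h1 : code p = code p0 := he ((hs p hp).trans (hs p0 hp0).symm)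
    have hn : p.n = p0.n := by
      have := congrArg List.length h1
      simpa [code] using this
    refine ⟨hn, ?_⟩
    funext j
    by_cases hj : j < p0.n
    · have h2 : (code p)[j]? = (code p0)[j]? := by rw [h1]
      have h3 : (code p)[j]? = some ⟨p.F j, p.hK j⟩ := by
        simp only [code, List.getElem?_ofFn]
        rw [dif_pos (by omega)]
      have h4 : (code p0)[j]? = some ⟨p0.F j, p0.hK j⟩ := by
        simp only [code, List.getElem?_ofFn]
        rw [dif_pos hj]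
      rw [h3, h4] at h2
      exact congrArg Subtype.val (Option.some.inj h2)
    · rw [p.h0 j (by omega), p0.h0 j (by omega)]
  refine ⟨⟨p0.n, p0.F, s.biUnion Cond.s, p0.hK, p0.h0⟩, ?_⟩
  intro p hp
  obtain ⟨h1, h2⟩ := key p hp
  refine ⟨h1.le, fun j _ => by rw [h2], Finset.subset_biUnion_of_mem Cond.s hp, ?_⟩
  intro j hj x _
  change p0.F j x = 0
  rw [p0.h0 j (by omega)]; rfl

end

/-- The generic sequence. -/
theorem generic (hMA : MAcentered) {I : Type} (hI : #I ≤ ℵ₁) (K : Set (I → ℤ)) (hK : K.Countable)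
    (h0K : (0 : I → ℤ) ∈ K) (D : Set I) (μ : I → (I → ℤ) → ℤ)
    (hμ0 : ∀ α ∈ D, μ α 0 = 0)
    (hD : ∀ α ∈ D, ∀ s : Finset I, ∃ F ∈ K, (∀ x ∈ s, F x = 0) ∧ μ α F ≠ 0) :
    ∃ F : ℕ → I → ℤ, (∀ j, F j ∈ K) ∧ (∀ x, ∃ n, ∀ j, n ≤ j → F j x = 0) ∧
      ∀ α ∈ D, ∀ z : ℤ, ∃ n : ℕ,
        ¬ ((n.factorial : ℤ) ∣ (∑ j ∈ Finset.range n, (j.factorial : ℤ) * μ α (F j)) - z) := by
  classical
  have : Nonempty (Cond K) := ⟨⟨0, fun _ => 0, ∅, fun _ => h0K, fun _ _ => rfl⟩⟩
  let Dn : I ⊕ ((I × ℤ) ⊕ ℕ) → Set (Cond K) := fun t =>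
    match t with
    | Sum.inl x => {p | x ∈ p.s}
    | Sum.inr (Sum.inl (α, z)) => {p | α ∈ D →
        ¬ ((p.n.factorial : ℤ) ∣
          (∑ j ∈ Finset.range p.n, (j.factorial : ℤ) * μ α (p.F j)) - z)}
    | Sum.inr (Sum.inr n) => {p | n ≤ p.n}
  -- extension by zeros
  have ext0 : ∀ (p : Cond K) (m : ℕ), p.n ≤ m → ∃ q : Cond K, q ≤ p ∧ q.n = m ∧ q.F = p.F ∧
      q.s = p.s := by
    intro p m hm
    refine ⟨⟨m, p.F, p.s, p.hK, fun j hj => p.h0 j (hm.trans hj)⟩, ?_, rfl, rfl, rfl⟩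
    exact ⟨hm, fun _ _ => rfl, subset_rfl, fun j hj x _ => by
      change p.F j x = 0
      rw [p.h0 j hj]; rfl⟩
  have hcard : #(Set.range Dn) ≤ ℵ₁ := by
    refine mk_range_le.trans ?_
    have h1 : #(I × ℤ) ≤ ℵ₁ := by
      rw [mk_prod, lift_id, lift_id]
      calc #I * #ℤ ≤ ℵ₁ * ℵ₁ := mul_le_mul' hI (by
            rw [Cardinal.mk_eq_aleph0 ℤ]; exact aleph0_le_aleph 1)
        _ = ℵ₁ := mul_eq_self (aleph0_le_aleph 1)
    have h2 : #ℕ ≤ ℵ₁ := by rw [Cardinal.mk_eq_aleph0 ℕ]; exact aleph0_le_aleph 1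
    rw [mk_sum, mk_sum, lift_id, lift_id, lift_id, lift_id]
    exact add_le_of_le (aleph0_le_aleph 1) hI (add_le_of_le (aleph0_le_aleph 1) h1 h2)
  have hdense : ∀ E ∈ Set.range Dn, ∀ p : Cond K, ∃ q ∈ E, q ≤ p := by
    rintro E ⟨t, rfl⟩ p
    rcases t with x | ⟨⟨α, z⟩ | n⟩
    · refine ⟨⟨p.n, p.F, insert x p.s, p.hK, p.h0⟩, Finset.mem_insert_self x p.s, ?_⟩
      exact ⟨le_rfl, fun _ _ => rfl, Finset.subset_insert x p.s, fun j hj y _ => by
        change p.F j y = 0
        rw [p.h0 j hj]; rfl⟩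
    · by_cases hα : α ∈ D
      swap
      · exact ⟨p, fun h => absurd h hα, le_rfl⟩
      obtain ⟨F, hFK, hFs, hFμ⟩ := hD α hα p.s
      set v := μ α F with hv
      -- the length at which the new function is appended
      set m := max p.n v.natAbs with hm
      have hpm : p.n ≤ m := le_max_left _ _
      have hvm : ¬ (((m + 1 : ℕ) : ℤ) ∣ v) := by
        intro hdvd
        have h1 := Int.natAbs_dvd_natAbs.2 hdvd
        have h2 := Nat.le_of_dvd (Int.natAbs_pos.2 hFμ) h1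
        have h3 : v.natAbs ≤ m := le_max_right _ _
        simp only [Int.natAbs_natCast] at h2
        omega
      -- the two candidates
      let q1 : Cond K := ⟨m + 1, p.F, p.s, p.hK, fun j hj => p.h0 j (by omega)⟩
      let q2 : Cond K := ⟨m + 1, fun j => if j = m then F else p.F j, p.s, fun j => by
          by_cases hj : j = m
          · simp only [hj, if_true]; exact hFK
          · simp only [hj, if_false]; exact p.hK j, fun j hj => by
          have : j ≠ m := by omega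
          simp only [this, if_false]
          exact p.h0 j (by omega)⟩
      have hq1 : q1 ≤ p := ⟨by change p.n ≤ m + 1; omega, fun _ _ => rfl, subset_rfl,
        fun j hj x _ => by
          change p.F j x = 0
          rw [p.h0 j hj]; rfl⟩
      have hq2 : q2 ≤ p := by
        refine ⟨by change p.n ≤ m + 1; omega, ?_, subset_rfl, ?_⟩
        · intro j hj
          have : j ≠ m := by omega
          change (if j = m then F else p.F j) = p.F j
          rw [if_neg this]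
        · intro j hj x hx
          change (if j = m then F else p.F j) x = 0
          by_cases hjm : j = m
          · rw [if_pos hjm]; exact hFs x hx
          · rw [if_neg hjm, p.h0 j hj]; rfl
      have hFm : μ α (p.F m) = 0 := by rw [p.h0 m hpm]; exact hμ0 α hα
      by_contra hcon
      push Not at hcon
      have g1 : q1 ∉ Dn (Sum.inr (Sum.inl (α, z))) := fun h => hcon q1 h hq1
      have g2 : q2 ∉ Dn (Sum.inr (Sum.inl (α, z))) := fun h => hcon q2 h hq2
      have g1' : (((m + 1).factorial : ℕ) : ℤ) ∣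
          (∑ j ∈ Finset.range (m + 1), (j.factorial : ℤ) * μ α (p.F j)) - z := by
        by_contra h
        exact g1 (fun _ => h)
      have g2' : (((m + 1).factorial : ℕ) : ℤ) ∣
          (∑ j ∈ Finset.range (m + 1), (j.factorial : ℤ) *
            μ α (if j = m then F else p.F j)) - z := by
        by_contra h
        exact g2 (fun _ => h)
      rw [Finset.sum_range_succ, hFm, mul_zero, add_zero] at g1'
      rw [Finset.sum_range_succ, if_pos rfl] at g2'
      have hs : (∑ j ∈ Finset.range m, (j.factorial : ℤ) * μ α (if j = m then F else p.F j)) =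
          ∑ j ∈ Finset.range m, (j.factorial : ℤ) * μ α (p.F j) := by
        refine Finset.sum_congr rfl fun j hj => ?_
        rw [if_neg (Finset.mem_range.1 hj).ne]
      rw [hs] at g2'
      have h4 : (((m + 1).factorial : ℕ) : ℤ) ∣ (m.factorial : ℤ) * v := by
        obtain ⟨c1, hc1⟩ := g1'
        obtain ⟨c2, hc2⟩ := g2'
        exact ⟨c2 - c1, by linear_combination hc2 - hc1⟩
      rw [Nat.factorial_succ] at h4
      push_cast at h4
      rw [mul_comm ((m : ℤ) + 1)] at h4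
      have h5 := (mul_dvd_mul_iff_left (by
        exact_mod_cast (Nat.factorial_pos m).ne' : (m.factorial : ℤ) ≠ 0)).1 h4
      exact hvm (by push_cast; exact h5)
    · obtain ⟨q, hq, hn, -, -⟩ := ext0 p (max n p.n) (le_max_right _ _)
      exact ⟨q, by change n ≤ q.n; rw [hn]; exact le_max_left _ _, hq⟩
  obtain ⟨G, hGne, hGup, hGdir, hGD⟩ := hMA (Cond K) (centered hK h0K) (Set.range Dn) hcard hdense
  have hlen : ∀ n : ℕ, ∃ p ∈ G, n ≤ p.n := by
    intro n
    obtain ⟨p, hp, hp'⟩ := hGD (Dn (Sum.inr (Sum.inr n))) ⟨Sum.inr (Sum.inr n), rfl⟩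
    exact ⟨p, hp, hp'⟩
  choose P hPG hPn using hlen
  have agree : ∀ p ∈ G, ∀ j, j < p.n → (P (j + 1)).F j = p.F j := by
    intro p hp j hj
    obtain ⟨r, -, hr1, hr2⟩ := hGdir p hp (P (j + 1)) (hPG _)
    rw [← hr1.2.1 j hj, ← hr2.2.1 j (hPn (j + 1))]
  refine ⟨fun j => (P (j + 1)).F j, fun j => (P (j + 1)).hK j, ?_, ?_⟩
  · intro x
    obtain ⟨p, hp, hxp⟩ := hGD (Dn (Sum.inl x)) ⟨Sum.inl x, rfl⟩
    refine ⟨p.n, fun j hj => ?_⟩
    obtain ⟨r, -, hr1, hr2⟩ := hGdir p hp (P (j + 1)) (hPG _)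
    change (P (j + 1)).F j x = 0
    rw [← hr2.2.1 j (hPn (j + 1))]
    exact hr1.2.2.2 j hj x hxp
  · intro α hα z
    obtain ⟨p, hp, hpE⟩ := hGD (Dn (Sum.inr (Sum.inl (α, z)))) ⟨Sum.inr (Sum.inl (α, z)), rfl⟩
    refine ⟨p.n, ?_⟩
    have h1 := hpE hα
    have h2 : (∑ j ∈ Finset.range p.n, (j.factorial : ℤ) * μ α ((P (j + 1)).F j)) =
        ∑ j ∈ Finset.range p.n, (j.factorial : ℤ) * μ α (p.F j) :=
      Finset.sum_congr rfl fun j hj => by rw [agree p hp j (Finset.mem_range.1 hj)]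
    rw [h2]
    exact h1

end Pool.Agent.Helper84.GM
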