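import Mathlib
import Pool.Agent.Helper84.GM.Generic

set_option autoImplicit false

namespace Pool.Agent.Helper84.GM

open Set Cardinal

/-- the subgroup generated by the functions with countable support -/
abbrev N (I : Type) : AddSubgroup (I → ℤ) :=
  AddSubgroup.closure {f : I → ℤ | (Function.support f).Countable}

lemma mem_N {I : Type} (f : I → ℤ) : f ∈ N I ↔ {x | f x ≠ 0}.Countable := by
  constructor
  · intro hf
    refine AddSubgroup.closure_induction (p := fun g _ => {x | g x ≠ 0}.Countable) ?_ ?_ ?_ ?_ hf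
    · intro x hx; exact hx
    · simp
    · intro x y _ _ hx hy
      refine (hx.union hy).mono ?_
      intro t ht
      by_contra hcon
      simp only [mem_union, mem_ofPred_eq, not_or, not_not] at hcon
      exact ht (by simp [hcon.1, hcon.2])
    · intro x _ hx
      refine hx.mono ?_
      intro t ht
      simpa using ht
  · intro hf
    exact AddSubgroup.subset_closure hf

lemma mk_eq {I : Type} (f g : I → ℤ) :
    (QuotientAddGroup.mk f : (I → ℤ) ⧸ N I) = QuotientAddGroup.mk g ↔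
      {x | f x ≠ g x}.Countable := by
  rw [QuotientAddGroup.eq, mem_N]
  have : {x | (-f + g) x ≠ 0} = {x | f x ≠ g x} := by
    ext x
    simp only [Pi.add_apply, Pi.neg_apply, mem_ofPred_eq, ne_eq]
    constructor
    · intro h h'; exact h (by rw [h']; ring)
    · intro h h'; exact h (by linarith)
  rw [this]

section

variable {I : Type} (Φ : (I → ℤ) →+ ((I → ℤ) ⧸ N I))

/-- a representative of the image -/
noncomputable def R (f : I → ℤ) : I → ℤ := Quotient.out (Φ f)

lemma mk_R (f : I → ℤ) : (QuotientAddGroup.mk (R Φ f) : (I → ℤ) ⧸ N I) = Φ f :=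
  Quotient.out_eq _

/-- the rows are almost everywhere additive on a countable set -/
lemma R_zero : {α | R Φ 0 α ≠ 0}.Countable := by
  have h : (QuotientAddGroup.mk (R Φ 0) : (I → ℤ) ⧸ N I) = QuotientAddGroup.mk (0 : I → ℤ) := by
    rw [mk_R, map_zero]; rfl
  exact (mk_eq _ _).1 h

lemma R_add (f g : I → ℤ) : {α | R Φ (f + g) α ≠ R Φ f α + R Φ g α}.Countable := by
  have h : (QuotientAddGroup.mk (R Φ (f + g)) : (I → ℤ) ⧸ N I) =
      QuotientAddGroup.mk (R Φ f + R Φ g) := by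
    rw [mk_R, map_add, QuotientAddGroup.mk_add, mk_R, mk_R]
  exact (mk_eq _ _).1 h

/-- Claim 1. -/
theorem claim1 (hMA : MAcentered) (hI : #I ≤ ℵ₁) (K : Set (I → ℤ)) (hK : K.Countable)
    (h0K : (0 : I → ℤ) ∈ K) :
    {α | ¬ ∃ s : Finset I, ∀ F ∈ K, (∀ x ∈ s, F x = 0) → R Φ F α = 0}.Countable := by
  classical
  by_contra hunc
  set D := {α | ¬ ∃ s : Finset I, ∀ F ∈ K, (∀ x ∈ s, F x = 0) → R Φ F α = 0} \
    {α | R Φ 0 α ≠ 0} with hDdef
  have hDunc : ¬ D.Countable := by
    intro h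
    apply hunc
    refine (h.union (R_zero Φ)).mono ?_
    intro α hα
    by_cases h' : R Φ 0 α ≠ 0
    · exact Or.inr h'
    · exact Or.inl ⟨hα, h'⟩
  obtain ⟨F, hFK, hFx, hFD⟩ := generic hMA hI K hK h0K D (fun α f => R Φ f α)
    (fun α hα => not_not.1 hα.2) (fun α hα s => by
      have := hα.1
      simp only [mem_ofPred_eq, not_exists, not_forall] at this
      obtain ⟨G, hG, hGs, hGμ⟩ := this s
      exact ⟨G, hG, hGs, hGμ⟩)
  choose nx hnx using hFx
  -- the partial sums and the total sum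
  let T : ℕ → I → ℤ := fun n => ∑ j ∈ Finset.range n, (j.factorial : ℤ) • F j
  let S : I → ℤ := fun x => ∑ j ∈ Finset.range (nx x), (j.factorial : ℤ) * F j x
  have hT : ∀ n x, T n x = ∑ j ∈ Finset.range n, (j.factorial : ℤ) * F j x := by
    intro n x
    simp [T, Finset.sum_apply]
  have hdvd : ∀ n x, (n.factorial : ℤ) ∣ S x - T n x := by
    intro n x
    rw [hT]
    rcases le_total n (nx x) with h | h
    · have : S x = (∑ j ∈ Finset.range n, (j.factorial : ℤ) * F j x) +
          ∑ j ∈ Finset.Ico n (nx x), (j.factorial : ℤ) * F j x :=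
        (Finset.sum_range_add_sum_Ico _ h).symm
      rw [this, add_sub_cancel_left]
      refine Finset.dvd_sum fun j hj => ?_
      have h2 : (n.factorial : ℤ) ∣ (j.factorial : ℤ) :=
        Int.natCast_dvd_natCast.2 (Nat.factorial_dvd_factorial (Finset.mem_Ico.1 hj).1)
      exact Dvd.dvd.mul_right h2 _
    · have : (∑ j ∈ Finset.range n, (j.factorial : ℤ) * F j x) = S x +
          ∑ j ∈ Finset.Ico (nx x) n, (j.factorial : ℤ) * F j x :=
        (Finset.sum_range_add_sum_Ico _ h).symm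
      rw [this, Finset.sum_eq_zero (s := Finset.Ico (nx x) n), add_zero, sub_self]
      · exact dvd_zero _
      · intro j hj
        rw [hnx x j (Finset.mem_Ico.1 hj).1, mul_zero]
  choose H hH using hdvd
  have hSH : ∀ n, S = T n + (n.factorial : ℤ) • (fun x => H n x) := by
    intro n
    funext x
    have := hH n x
    simp only [Pi.add_apply, Pi.smul_apply, smul_eq_mul]
    linarith
  have hmk : ∀ n, (QuotientAddGroup.mk (R Φ S) : (I → ℤ) ⧸ N I) = QuotientAddGroup.mk
      ((∑ j ∈ Finset.range n, (j.factorial : ℤ) • R Φ (F j)) +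
        (n.factorial : ℤ) • R Φ (fun x => H n x)) := by
    intro n
    rw [mk_R]
    conv_lhs => rw [hSH n]
    rw [map_add, map_zsmul, QuotientAddGroup.mk_add, QuotientAddGroup.mk_zsmul, mk_R]
    congr 1
    simp only [T]
    rw [map_sum]
    have : ∀ (s : Finset ℕ) (g : ℕ → I → ℤ), (QuotientAddGroup.mk (∑ j ∈ s, g j) :
        (I → ℤ) ⧸ N I) = ∑ j ∈ s, QuotientAddGroup.mk (g j) :=
      fun s g => map_sum (QuotientAddGroup.mk' (N I)) g s
    rw [this]
    refine Finset.sum_congr rfl fun j _ => ?_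
    rw [map_zsmul, QuotientAddGroup.mk_zsmul, mk_R]
  have hex : (⋃ n : ℕ, {α | R Φ S α ≠ ((∑ j ∈ Finset.range n, (j.factorial : ℤ) • R Φ (F j)) +
        (n.factorial : ℤ) • R Φ (fun x => H n x)) α}).Countable :=
    Set.countable_iUnion fun n => (mk_eq _ _).1 (hmk n)
  obtain ⟨α, hαD, hα⟩ : ∃ α ∈ D, α ∉ (⋃ n : ℕ, {α | R Φ S α ≠
      ((∑ j ∈ Finset.range n, (j.factorial : ℤ) • R Φ (F j)) +
        (n.factorial : ℤ) • R Φ (fun x => H n x)) α}) := by
    by_contra hcon
    push Not at hcon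
    exact hDunc (hex.mono hcon)
  obtain ⟨n, hn⟩ := hFD α hαD (R Φ S α)
  apply hn
  simp only [mem_iUnion, mem_ofPred_eq, not_exists, not_not] at hα
  have h1 := hα n
  simp only [Pi.add_apply, Finset.sum_apply, Pi.smul_apply, smul_eq_mul] at h1
  rw [h1]
  exact ⟨-(R Φ (fun x => H n x) α), by ring⟩

/-- a countable family separating points from finite sets -/
lemma dual_family (hI : #I ≤ ℵ₁) : ∃ 𝒢 : Set (I → ℤ), 𝒢.Countable ∧
    ∀ (t : Finset I) (x : I), ∃ F ∈ 𝒢, F x = 1 ∧ ∀ y ∈ t, y ≠ x → F y = 0 := by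
  classical
  have h1 : #I ≤ #(Set ℕ) := by
    rw [mk_set, mk_eq_aleph0 ℕ, two_power_aleph0]
    exact hI.trans aleph_one_le_continuum
  obtain ⟨⟨S, hS⟩⟩ := h1
  let gen : Finset ℕ × Finset ℕ → I → ℤ := fun tu y =>
    if ∀ i ∈ tu.1, (i ∈ S y ↔ i ∈ tu.2) then 1 else 0
  refine ⟨Set.range gen, Set.countable_range gen, ?_⟩
  intro t x
  have hdiff : ∀ y : I, y ≠ x → ∃ i : ℕ, ¬ (i ∈ S y ↔ i ∈ S x) := by
    intro y hy
    by_contra hcon
    push Not at hcon
    exact hy (hS (Set.ext hcon))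
  choose! d hd using hdiff
  refine ⟨gen (t.image d, (t.image d).filter (· ∈ S x)), ⟨_, rfl⟩, ?_, ?_⟩
  · simp only [gen]
    rw [if_pos]
    intro i hi
    simp [Finset.mem_filter, hi]
  · intro y hy hyx
    simp only [gen]
    rw [if_neg]
    intro hcon
    have hi : d y ∈ t.image d := Finset.mem_image_of_mem d hy
    have := hcon (d y) hi
    apply hd y hyx
    rw [this, Finset.mem_filter]
    simp [hi]

lemma span_countable (s : Set (I → ℤ)) (hs : s.Countable) :
    ((Submodule.span ℤ s : Submodule ℤ (I → ℤ)) : Set (I → ℤ)).Countable := by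
  have := hs.to_subtype
  have h1 := Finsupp.range_linearCombination ℤ (v := (Subtype.val : s → (I → ℤ)))
  rw [Subtype.range_coe] at h1
  rw [← h1, LinearMap.coe_range]
  exact Set.countable_range _

/-- the functional given by a finitely supported row -/
noncomputable def L (c : I →₀ ℤ) (f : I → ℤ) : ℤ := ∑ x ∈ c.support, c x * f x

lemma L_eq (c : I →₀ ℤ) (f : I → ℤ) (t : Finset I) (h : c.support ⊆ t) :
    L c f = ∑ x ∈ t, c x * f x := by
  unfold L
  refine Finset.sum_subset h fun x _ hx => ?_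
  rw [Finsupp.notMem_support_iff.1 hx, zero_mul]

/-- Claim 2: on a countable subgroup which contains dual families, almost every row is given by a
finitely supported row. -/
theorem rep (hMA : MAcentered) (hI : #I ≤ ℵ₁) (K : Submodule ℤ (I → ℤ))
    (hK : (K : Set (I → ℤ)).Countable)
    (hdual : ∀ (t : Finset I) (x : I), ∃ F ∈ K, F x = 1 ∧ ∀ y ∈ t, y ≠ x → F y = 0) :
    {α | ¬ ∃ c : I →₀ ℤ, ∀ F ∈ K, R Φ F α = L c F}.Countable := by
  classical
  have hadd : (⋃ p ∈ (K : Set (I → ℤ)) ×ˢ (K : Set (I → ℤ)),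
      {α | R Φ (p.1 + p.2) α ≠ R Φ p.1 α + R Φ p.2 α}).Countable :=
    (hK.prod hK).biUnion fun p _ => R_add Φ p.1 p.2
  refine ((claim1 Φ hMA hI K hK K.zero_mem).union hadd).mono ?_
  intro α hα
  by_contra hcon
  simp only [mem_union, not_or, mem_ofPred_eq, not_not] at hcon
  obtain ⟨⟨s, hs⟩, hαadd⟩ := hcon
  have hρ : ∀ F ∈ K, ∀ G ∈ K, R Φ (F + G) α = R Φ F α + R Φ G α := by
    intro F hF G hG
    by_contra hne
    apply hαadd
    simp only [mem_iUnion]
    exact ⟨(F, G), ⟨hF, hG⟩, hne⟩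
  let ρ : K →+ ℤ := AddMonoidHom.mk' (fun F => R Φ (F : I → ℤ) α)
    (fun F G => hρ F F.2 G G.2)
  apply hα
  choose d hdK hd1 hd0 using fun x => hdual s x
  refine ⟨Finsupp.onFinset s (fun x => if x ∈ s then R Φ (d x) α else 0) (by
    intro x hx
    by_contra h
    simp [h] at hx), ?_⟩
  intro F hF
  rw [L_eq _ _ s Finsupp.support_onFinset_subset]
  -- subtract the combination of the dual family
  let dK : I → K := fun x => ⟨d x, hdK x⟩
  let FK : K := ⟨F, hF⟩
  have hv : ρ (FK - ∑ x ∈ s, F x • dK x) = 0 := by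
    change R Φ ((FK - ∑ x ∈ s, F x • dK x : K) : I → ℤ) α = 0
    apply hs _ (FK - ∑ x ∈ s, F x • dK x : K).2
    intro y hy
    simp only [AddSubgroupClass.coe_sub, Submodule.coe_sum, Submodule.coe_smul, Pi.sub_apply,
      Finset.sum_apply, Pi.smul_apply, smul_eq_mul, FK, dK]
    rw [Finset.sum_eq_single y]
    · rw [hd1]; ring
    · intro x _ hxy
      rw [hd0 x y hy hxy.symm, mul_zero]
    · intro h; exact absurd hy h
  rw [map_sub, sub_eq_zero, map_sum] at hv
  change ρ FK = _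
  rw [hv]
  refine Finset.sum_congr rfl fun x hx => ?_
  rw [map_zsmul, Finsupp.onFinset_apply, if_pos hx, smul_eq_mul, mul_comm]
  rfl

lemma L_unique (K : Submodule ℤ (I → ℤ))
    (hdual : ∀ (t : Finset I) (x : I), ∃ F ∈ K, F x = 1 ∧ ∀ y ∈ t, y ≠ x → F y = 0)
    (c c' : I →₀ ℤ) (h : ∀ F ∈ K, L c F = L c' F) : c = c' := by
  classical
  ext x
  obtain ⟨F, hF, hF1, hF0⟩ := hdual (insert x (c.support ∪ c'.support)) x
  have h1 := h F hF
  have hs : ∀ e : I →₀ ℤ, e.support ⊆ insert x (c.support ∪ c'.support) → L e F = e x := by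
    intro e he
    rw [L_eq e F _ he, Finset.sum_eq_single x]
    · rw [hF1, mul_one]
    · intro y hy hyx
      rw [hF0 y hy hyx, mul_zero]
    · intro h'; exact absurd (Finset.mem_insert_self _ _) h'
  rw [hs c (fun y hy => Finset.mem_insert_of_mem (Finset.mem_union_left _ hy)),
    hs c' (fun y hy => Finset.mem_insert_of_mem (Finset.mem_union_right _ hy))] at h1
  exact h1

/-- Under Martin's axiom every homomorphism lifts. -/
theorem lift (hMA : MAcentered) (hI : #I ≤ ℵ₁) :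
    ∃ c : I → I →₀ ℤ, ∀ f : I → ℤ,
      Φ f = QuotientAddGroup.mk (fun α => L (c α) f) := by
  classical
  obtain ⟨𝒢, h𝒢, hdual⟩ := dual_family (I := I) hI
  set K0 : Submodule ℤ (I → ℤ) := Submodule.span ℤ 𝒢 with hK0
  have hdual0 : ∀ (t : Finset I) (x : I), ∃ F ∈ K0, F x = 1 ∧ ∀ y ∈ t, y ≠ x → F y = 0 := by
    intro t x
    obtain ⟨F, hF, h1, h2⟩ := hdual t x
    exact ⟨F, Submodule.subset_span hF, h1, h2⟩
  have h0 := rep Φ hMA hI K0 (span_countable 𝒢 h𝒢) hdual0
  let c : I → I →₀ ℤ := fun α =>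
    if h : ∃ c : I →₀ ℤ, ∀ F ∈ K0, R Φ F α = L c F then h.choose else 0
  have hc : ∀ α, (∃ c : I →₀ ℤ, ∀ F ∈ K0, R Φ F α = L c F) →
      ∀ F ∈ K0, R Φ F α = L (c α) F := by
    intro α h
    simp only [c, dif_pos h]
    exact h.choose_spec
  refine ⟨c, fun f => ?_⟩
  rw [← mk_R, mk_eq]
  set K1 : Submodule ℤ (I → ℤ) := Submodule.span ℤ (insert f 𝒢) with hK1
  have h01 : K0 ≤ K1 := Submodule.span_mono (Set.subset_insert f 𝒢)
  have hdual1 : ∀ (t : Finset I) (x : I), ∃ F ∈ K1, F x = 1 ∧ ∀ y ∈ t, y ≠ x → F y = 0 := by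
    intro t x
    obtain ⟨F, hF, h1, h2⟩ := hdual0 t x
    exact ⟨F, h01 hF, h1, h2⟩
  have h1 := rep Φ hMA hI K1 (span_countable _ (h𝒢.insert f)) hdual1
  refine (h0.union h1).mono ?_
  intro α hα
  by_contra hcon
  simp only [mem_union, not_or, mem_ofPred_eq, not_not] at hcon
  obtain ⟨hg0, c1, hc1⟩ := hcon
  have hcc : c α = c1 := L_unique K0 hdual0 _ _ fun F hF => by
    rw [← hc α hg0 F hF, hc1 F (h01 hF)]
  exact hα (by rw [hc1 f (Submodule.subset_span (Set.mem_insert f 𝒢)), hcc])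

end

end Pool.Agent.Helper84.GM
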